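import Pool.Agent.N110.DV.Im
import Pool.Agent.N110.DV.Main

/-!
Divisors on varieties which are dominated by a variety with birational self-maps which preserve the
class of a divisor: the numerical dimension is bounded by the number of the consecutive greatest
dynamical degrees.
-/

set_option autoImplicit false

open FF Pool.Agent.W602.GT Pool.Agent.Y172 Pool.Agent.R887 Pool.Agent.N110 Pool.Agent.N110.DV

/-- Let `X'` be a normal projective variety of dimension `n ≥ 1` with generic point `y'`, and `L'` a
`ℚ`-divisor on `X'`. Let `S` be a set of birational self-maps `f` of `X'` of bounded degrees (one map,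
for instance) which are isomorphisms in codimension one (on a variety with terminal singularities and
torsion canonical class every birational self-map is one), given by the automorphisms `φ = f^*` of
the function field, and suppose that they preserve the numerical class of `L'` (the divisors
`L' - f^* L'` and `L' - (f⁻¹)^* L'` are pseudo-effective). Suppose that the greatest of the joint
dynamical degrees `λ 0, ..., λ n` of `S` (the dynamical degrees of `f`, if `S = {f}`) is not attained
at `ν + 1` consecutive indices.

Let `X` be any normal projective variety and `L` a `ℚ`-divisor on `X`, and let `X' ⇢ X` be a dominant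
generically finite rational map, given by the homomorphism `π` of the function fields, which
contracts no prime divisors, such that `L' - π^* L` is pseudo-effective (for instance a finite
quotient map and `L' = π^* L`). The map has nothing to do with the maps in `S`.
Then the numerical dimension of `L` is less than `ν`, and so is the Iitaka dimension. If the Iitaka
dimension is at least `ν - 1` then the Iitaka dimension and the numerical dimension of `L` are equal.
If `ν = 1`, `L` is nef and the irregularity of `X` is zero, then `L` is torsion: `m L` is the divisor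
of a rational function for some `m ≥ 1`. -/
theorem Pool.Agent.Results.MP_5ee2d0_ag.DominatedDivisorsPlateau.result
    {K K' : Type} [Field K] [Algebra ℂ K] [Field K'] [Algebra ℂ K'] {N N' n : ℕ}
    {y : Fin (N + 1) → K} {y' : Fin (N' + 1) → K'} (hy : NormalModel y) (hy' : NormalModel y')
    (hn : Algebra.trdeg ℂ K = n) (hn' : Algebra.trdeg ℂ K' = n) (hn0 : 0 < n)
    {L' : Place ℂ K' → ℚ} (hL' : {P | IsPrimeDivisor y' P ∧ L' P ≠ 0}.Finite)
    {S : Set (K' ≃ₐ[ℂ] K')}
    (hiso : ∀ φ ∈ S, PseudoAut φ y') (h1 : ∀ φ ∈ S, ClassLe φ y' L')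
    (h2 : ∀ φ ∈ S, ClassLe φ⁻¹ y' L') {C : ℕ} (hC : ∀ φ ∈ S, mixedDegree φ y' n 1 ≤ C) {ν : ℕ}
    (hν : ν ≤ n) (hdeg : ∀ j, j + ν ≤ n → ∃ a ≤ ν, ∃ p ≤ n,
      jointDegree S y' n (j + a) < jointDegree S y' n p)
    {L : Place ℂ K → ℚ} (hL : {P | IsPrimeDivisor y P ∧ L P ≠ 0}.Finite) {π : K →ₐ[ℂ] K'}
    (hπ : ImgClassLe π y L y' L') :
    NuLt y n L ν ∧ ¬ IitakaGe y L ν ∧ (1 ≤ ν → IitakaGe y L (ν - 1) → AbundantD y n L) ∧
      (ν = 1 → NefD y n L → IrregularityZero y → ∃ m : ℕ, 1 ≤ m ∧ ∃ g : K, g ≠ 0 ∧
        ∀ P, IsPrimeDivisor y P → (P.ord g : ℚ) = m * L P) := by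
  have key' : NuLt y' n L' ν := by
    by_contra hnum
    obtain ⟨j, hj, h4⟩ := plateauD hy' hn' hL' hiso h1 h2 hC hν hnum
    obtain ⟨a, ha, p, hp, hlt⟩ := hdeg j hj
    exact absurd hlt (not_lt.2 (h4 a ha p hp))
  have key := nuLt_img hy hy' hn hn' hπ hν key'
  refine ⟨key, iitaka_lt hy hn hν key, fun h3 h4 => ⟨ν - 1, h4, ?_⟩, ?_⟩
  · rwa [show ν - 1 + 1 = ν by omega]
  · rintro rfl hnef hq
    have h2 := key
    obtain ⟨m, hm, g, hg0, hg⟩ := trivialD hy hn hn0 hL hq hnef h2
    refine ⟨m, hm, g⁻¹, inv_ne_zero hg0, fun P hP => ?_⟩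
    have h4 := hg P hP
    rw [P.ord_inv]
    push_cast
    linarith
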