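import Pool.Agent.N110.CC.SA

/-!
Semiampleness of the nef divisors on varieties of irregularity zero with an abelian group of
automorphisms of maximal rank.
-/

set_option autoImplicit false

open FF Pool.Agent.W602.GT Pool.Agent.Y172 Pool.Agent.R887 Pool.Agent.N110 Pool.Agent.N110.CC

/-- Let `X` be a normal projective variety of dimension `n ≥ 1` and irregularity zero, with generic
point `y`. Let the vectors `c P` be the classes of the prime divisors in `N¹(X) = ℤ ^ (r + 1)`,
`r ≥ 1` (if `X` is `ℚ`-factorial then `r + 1` is the Picard number of `X`). Let `ℤ ^ r` act on `X` by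
automorphisms `f_v`, given by the automorphisms `φ v = f_v^*` of the function field, and suppose that
`f_v` has positive entropy (the first dynamical degree is greater than `1`) for all `v ≠ 0`. So the
rank of the group is the Picard number of `X` minus one, the greatest possible value.

Then every pseudo-effective `ℚ`-divisor `L` on `X`, in particular every nef divisor, is semiample:
for some `m ≥ 1` the divisor `m L` is integral and the linear system `|m L|` has no base points. -/
theorem Pool.Agent.Results.MP_5ee2d0_ag.MaximalRankAutomorphisms.result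
    {K : Type} [Field K] [Algebra ℂ K] {N n r : ℕ} {y : Fin (N + 1) → K} (hy : NormalModel y)
    (hn : Algebra.trdeg ℂ K = n) (hn0 : 0 < n) (hq : IrregularityZero y) (hr : 0 < r)
    {c : Place ℂ K → Fin (r + 1) → ℤ} (hc : PicardBasis y c)
    {φ : (Fin r → ℤ) → (K ≃ₐ[ℂ] K)} (hφ : ∀ u v, φ (u + v) = φ u * φ v)
    (haut : ∀ v, IsAut (φ v) y) (hent : ∀ v, v ≠ 0 → 1 < dynDegree (φ v) y n 1)
    {L : Place ℂ K → ℚ} (hL : {P | IsPrimeDivisor y P ∧ L P ≠ 0}.Finite) (hps : PsefD y L) :
    SemiampleD y n L :=
  semiample_q hy hn hn0 hr hc hφ haut hent hq hL hps
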