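import Pool.Agent.N110.DV.Main

/-!
Divisors whose class is invariant under an abelian group of birational self-maps of positive
entropy: a bound for the rank by the numerical dimension, and triviality of nef divisors if the rank
is maximal.
-/

set_option autoImplicit false

open FF Pool.Agent.W602.GT Pool.Agent.Y172 Pool.Agent.R887 Pool.Agent.N110 Pool.Agent.N110.DV

/-- Let `X` be a normal projective variety of dimension `n ≥ 1`, with generic point `y` (a projective
manifold with trivial canonical class, for instance). By the theorem of Néron and Severi the group of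
the divisors on `X` modulo numerical equivalence is finitely generated; this is the hypothesis `hN`.
Let `L` be a `ℚ`-divisor on `X` and let `ℤ ^ r`, `r ≥ 1`, act by birational self-maps `f_v` of `X`,
given by the automorphisms `φ v = f_v^*` of the function field, which are isomorphisms in codimension
one (every birational self-map is one if the canonical class is trivial and `X` is smooth) and
preserve the numerical class of `L` (the divisors `L - f_v^* L` are pseudo-effective). Suppose that
the first dynamical degree of `f_v` is greater than `1` for all `v ≠ 0`. Then `r ≤ n - 1`, the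
numerical dimension of `L` is at most `n - 1 - r`, and so is the Iitaka dimension. If the Iitaka
dimension is at least `n - 1 - r` then the Iitaka dimension and the numerical dimension of `L` are
equal. If `r = n - 1`, `L` is nef and the irregularity of `X` is zero, then `L` is torsion: `m L` is
the divisor of a rational function for some `m ≥ 1`. -/
theorem Pool.Agent.Results.MP_5ee2d0_ag.PositiveEntropyClasses.result
    {K : Type} [Field K] [Algebra ℂ K] {N n : ℕ} {y : Fin (N + 1) → K} (hy : NormalModel y)
    (hn : Algebra.trdeg ℂ K = n) (hn0 : 0 < n) (hN : NeronSeveri y) {L : Place ℂ K → ℚ}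
    (hL : {P | IsPrimeDivisor y P ∧ L P ≠ 0}.Finite) {r : ℕ} (hr : 0 < r)
    {φ : (Fin r → ℤ) → (K ≃ₐ[ℂ] K)} (hφ : ∀ u v, φ (u + v) = φ u * φ v)
    (hiso : ∀ v, PseudoAut (φ v) y) (hcl : ∀ v, ClassLe (φ v) y L)
    (hent : ∀ v, v ≠ 0 → 1 < dynDegree (φ v) y n 1) :
    r < n ∧ NuLt y n L (n - r) ∧ ¬ IitakaGe y L (n - r) ∧
      (IitakaGe y L (n - r - 1) → AbundantD y n L) ∧
      (r + 1 = n → NefD y n L → IrregularityZero y → ∃ m : ℕ, 1 ≤ m ∧ ∃ g : K, g ≠ 0 ∧
        ∀ P, IsPrimeDivisor y P → (P.ord g : ℚ) = m * L P) := by
  have hgr := RK.growthRank_of_exp (PA.growthN hy hn hn0 hN hr hφ hiso hent)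
  obtain ⟨h1, h2⟩ := rank_mainD hy hn hn0 hL hr hφ hiso hcl hgr
  refine ⟨h1, h2, iitaka_lt hy hn (Nat.sub_le _ _) h2, fun h => ⟨n - r - 1, h, ?_⟩,
    fun h3 hnef hq => ?_⟩
  · rwa [show n - r - 1 + 1 = n - r by omega]
  · rw [show n - r = 1 by omega] at h2
    obtain ⟨m, hm, g, hg0, hg⟩ := trivialD hy hn hn0 hL hq hnef h2
    refine ⟨m, hm, g⁻¹, inv_ne_zero hg0, fun P hP => ?_⟩
    have h4 := hg P hP
    rw [P.ord_inv]
    push_cast
    linarith
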