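import Pool.Agent.N110.DV.SMain

/-!
Nef divisors whose class is invariant under dominant rational self-maps: the numerical dimension is
bounded by the number of the consecutive greatest dynamical degrees.
-/

set_option autoImplicit false

open FF Pool.Agent.W602.GT Pool.Agent.Y172 Pool.Agent.R887 Pool.Agent.N110 Pool.Agent.N110.DV

/-- Let `X` be a normal projective variety of dimension `n ≥ 1` with generic point `y` (a manifold
with trivial canonical class, for instance), and `L` a nef `ℚ`-divisor on `X`. Let `S` be a set of
dominant rational self-maps `f` of `X`, invertible or not, of bounded degrees (one map, for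
instance), given by the endomorphisms `φ = f^*` of the function field. Suppose that they contract no
prime divisors and preserve the class of `L`: the divisors `L - f^* L` are pseudo-effective (on a
variety with terminal singularities and torsion canonical class no dominant rational self-map
contracts a divisor). Suppose that the greatest of the joint dynamical degrees `λ 0, ..., λ n` of `S`
(the dynamical degrees of `f`, if `S = {f}`) is not attained at `ν + 1` consecutive indices. Then the
numerical dimension of `L` is less than `ν`, and so is the Iitaka dimension. If the Iitaka dimension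
is at least `ν - 1` then the Iitaka dimension and the numerical dimension of `L` are equal. If
`ν = 1` and the irregularity of `X` is zero, then `L` is torsion: `m L` is the divisor of a rational
function for some `m ≥ 1`. -/
theorem Pool.Agent.Results.MP_5ee2d0_ag.SelfMapPlateau.result
    {K : Type} [Field K] [Algebra ℂ K] {N n : ℕ} {y : Fin (N + 1) → K} (hy : NormalModel y)
    (hn : Algebra.trdeg ℂ K = n) (hn0 : 0 < n) {L : Place ℂ K → ℚ}
    (hL : {P | IsPrimeDivisor y P ∧ L P ≠ 0}.Finite) (hnef : NefD y n L)
    {S : Set (K →ₐ[ℂ] K)} (hcl : ∀ φ ∈ S, SelfClassLe φ y L) {C : ℕ}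
    (hC : ∀ φ ∈ S, selfDegree φ y n 1 ≤ C) {ν : ℕ} (hν : ν ≤ n)
    (hdeg : ∀ j, j + ν ≤ n → ∃ a ≤ ν, ∃ p ≤ n,
      selfJointDegree S y n (j + a) < selfJointDegree S y n p) :
    NuLt y n L ν ∧ ¬ IitakaGe y L ν ∧ (1 ≤ ν → IitakaGe y L (ν - 1) → AbundantD y n L) ∧
      (ν = 1 → IrregularityZero y → ∃ m : ℕ, 1 ≤ m ∧ ∃ g : K, g ≠ 0 ∧
        ∀ P, IsPrimeDivisor y P → (P.ord g : ℚ) = m * L P) := by
  have key : NuLt y n L ν := by
    by_contra hnum
    obtain ⟨j, hj, h4⟩ := splateauD hy hn hL hnef hcl hC hν hnum
    obtain ⟨a, ha, p, hp, hlt⟩ := hdeg j hj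
    exact absurd hlt (not_lt.2 (h4 a ha p hp))
  refine ⟨key, iitaka_lt hy hn hν key, fun h3 h4 => ⟨ν - 1, h4, ?_⟩, ?_⟩
  · rwa [show ν - 1 + 1 = ν by omega]
  · rintro rfl hq
    obtain ⟨m, hm, g, hg0, hg⟩ := trivialD hy hn hn0 hL hq hnef key
    refine ⟨m, hm, g⁻¹, inv_ne_zero hg0, fun P hP => ?_⟩
    have h4 := hg P hP
    rw [P.ord_inv]
    push_cast
    linarith
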